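import Pool.Agent.Helper95.FL.Stmts2

/-!
# Piece A-5 of project XT: cycles of length four
-/

set_option autoImplicit false

namespace Pool.Agent.Helper81.FL

open Pool.Agent.Helper95.FL
open scoped Classical

variable {X V : Type}

lemma adj_symm {𝒞 : Cx X V} {v w : V} (h : 𝒞.Adj v w) : 𝒞.Adj w v := by
  obtain ⟨h1, x, h2, h3⟩ := h
  exact ⟨fun e => h1 e.symm, x, h3, h2⟩

lemma el_swap (𝒞 : Cx X V) (v w : V) : 𝒞.el v w = -𝒞.el w v := by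
  funext e
  have hne : ¬ (𝒞.ty w = 𝒞.ty v + 1 ∧ 𝒞.ty v = 𝒞.ty w + 1) := by
    generalize 𝒞.ty v = a
    generalize 𝒞.ty w = b
    revert a b
    decide
  simp only [Cx.el, Pi.neg_apply]
  by_cases h1 : 𝒞.ty w = 𝒞.ty v + 1 ∧ e = (v, w)
  · have h2 : ¬ (𝒞.ty v = 𝒞.ty w + 1 ∧ e = (w, v)) := fun h => hne ⟨h1.1, h.1⟩
    rw [if_pos h1, if_neg h2, if_pos h1, neg_neg]
  · by_cases h2 : 𝒞.ty v = 𝒞.ty w + 1 ∧ e = (w, v)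
    · rw [if_neg h1, if_pos h2, if_pos h2]
    · rw [if_neg h1, if_neg h2, if_neg h2, if_neg h1]
      rfl

lemma fin3 (a b c e : Fin 3) (hab : a ≠ b) (hbc : b ≠ c) (hca : c ≠ a) (hce : c ≠ e) (hea : e ≠ a) :
    b = e ∧ ((b + 1 = a ∧ b + 2 = c) ∨ (b + 1 = c ∧ b + 2 = a)) := by
  revert a b c e
  decide

lemma of_chord (h : StCyc3) [Fintype X] (𝒞 : Cx X V) (d k : ℕ) (hN : 𝒞.Nice d k)
    (v₁ v₂ v₃ v₄ : V) (h24 : v₂ ≠ v₄) (h12 : 𝒞.Adj v₁ v₂) (h23 : 𝒞.Adj v₂ v₃)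
    (h34 : 𝒞.Adj v₃ v₄) (h41 : 𝒞.Adj v₄ v₁) (h13 : 𝒞.Adj v₁ v₃) :
    ∃ x y, x ≠ y ∧ 𝒞.Nb x y ∧ 𝒞.cyc4 v₁ v₂ v₃ v₄ = 𝒞.chi x - 𝒞.chi y := by
  obtain ⟨x, ⟨hx1, hx2, hx3⟩, hx⟩ := h X V 𝒞 d k hN v₁ v₂ v₃ ⟨h12, h23, adj_symm h13⟩
  obtain ⟨y, ⟨hy1, hy3, hy4⟩, hy⟩ := h X V 𝒞 d k hN v₁ v₃ v₄ ⟨h13, h34, h41⟩
  obtain ⟨hb, hs⟩ := fin3 (𝒞.ty v₁) (𝒞.ty v₂) (𝒞.ty v₃) (𝒞.ty v₄) h12.1 h23.1
    (fun e => h13.1 e.symm) h34.1 h41.1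
  have hcyc : 𝒞.cyc4 v₁ v₂ v₃ v₄ = 𝒞.cyc3 v₁ v₂ v₃ + 𝒞.cyc3 v₁ v₃ v₄ := by
    simp only [Cx.cyc4, Cx.cyc3]
    rw [el_swap 𝒞 v₃ v₁]
    abel
  have hxy : x ≠ y := by
    rintro rfl
    apply h24
    rw [← hx2, ← hy4, hb]
  have hNb : 𝒞.Nb x y := by
    refine ⟨𝒞.ty v₂, ?_⟩
    simp only [Cx.edge]
    rcases hs with ⟨h1, h2⟩ | ⟨h1, h2⟩
    · rw [h1, h2, hx1, hx3, hy1, hy3]
    · rw [h1, h2, hx1, hx3, hy1, hy3]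
  rcases hx with ⟨hx5, hx6⟩ | ⟨hx5, hx6⟩
  · rcases hy with ⟨hy5, hy6⟩ | ⟨hy5, hy6⟩
    · exact absurd (hx5.trans hy5.symm) h23.1
    · refine ⟨x, y, hxy, hNb, ?_⟩
      rw [hcyc, hx6, hy6, sub_eq_add_neg]
  · rcases hy with ⟨hy5, hy6⟩ | ⟨hy5, hy6⟩
    · refine ⟨y, x, hxy.symm, ?_, ?_⟩
      · obtain ⟨s, hs⟩ := hNb
        exact ⟨s, hs.symm⟩
      · rw [hcyc, hx6, hy6, sub_eq_add_neg, add_comm]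
    · exact absurd (add_right_cancel (hx5.symm.trans hy5)) h23.1

theorem stCyc4 (h : StCyc3) : StCyc4 := by
  intro X V _ 𝒞 d k hN v₁ v₂ v₃ v₄ ⟨h13, h24, h12, h23, h34, h41⟩
  rcases hN.chord4 v₁ v₂ v₃ v₄ h13 h24 h12 h23 h34 h41 with hc | hc
  · exact of_chord h 𝒞 d k hN v₁ v₂ v₃ v₄ h24 h12 h23 h34 h41 hc
  · obtain ⟨x, y, hxy, hNb, he⟩ :=
      of_chord h 𝒞 d k hN v₂ v₃ v₄ v₁ (fun e => h13 e.symm) h23 h34 h41 h12 hc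
    refine ⟨x, y, hxy, hNb, ?_⟩
    rw [← he]
    simp only [Cx.cyc4]
    abel

end Pool.Agent.Helper81.FL
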