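import Pool.Agent.Helper95.FL.Stmts2

/-!
# Piece N-1 of project XT: sizes of the weights
-/

set_option autoImplicit false

namespace Pool.Agent.Helper81.FL

open Pool.Agent.Helper95.FL

theorem stSizes : StSizes := by
  intro n d k hn hd hk _ Y Q L B M hY hQ hL hB hM
  have hN : (3 : ℤ) ≤ (n : ℤ) := by exact_mod_cast hn
  have hc : (204 : ℤ) * 2 ^ k * (d : ℤ) ^ 3 ≤ (n : ℤ) := by exact_mod_cast hk
  clear hn hk
  generalize (n : ℤ) = N at *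
  generalize (d : ℤ) = D at *
  have hN0 : (0 : ℤ) ≤ N := by linarith
  have hN1 : (1 : ℤ) ≤ N := by linarith
  have h1 : 6 * 2 ^ k * Y ≤ N := by
    rw [hY]; calc (6 : ℤ) * 2 ^ k * (34 * D ^ 3) = 204 * 2 ^ k * D ^ 3 := by ring
      _ ≤ N := hc
  -- the factor `T = 6 * 2 ^ k * Y`
  have hT : 3 * 2 ^ k * Y + 2 ^ k * (3 * Y) = 6 * 2 ^ k * Y := by ring
  have hp : ∀ a b : ℕ, a ≤ b → N ^ a ≤ N ^ b := fun a b h => pow_le_pow_right₀ hN1 h
  have hpos : ∀ a : ℕ, 0 ≤ N ^ a := fun a => pow_nonneg hN0 a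
  have hone : ∀ a : ℕ, 1 ≤ N ^ a := fun a => one_le_pow₀ hN1
  have hL1 : L ≤ 2 * N ^ 40 := by rw [hL]; linarith [hone 40]
  have hL0 : 0 ≤ L := by rw [hL]; linarith [hone 40]
  have hQ0 : 0 ≤ Q := by rw [hQ]; linarith [hone 40]
  have hQL : 4 * Q * L ≤ 16 * N ^ 80 := by
    calc 4 * Q * L ≤ 4 * Q * (2 * N ^ 40) :=
          mul_le_mul_of_nonneg_left hL1 (by linarith)
      _ = 16 * N ^ 80 := by rw [hQ]; ring
  have hQL0 : 0 ≤ 4 * Q * L := mul_nonneg (by linarith) hL0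
  have hB1 : B ≤ N ^ 84 := by
    have e1 : 4 * Q * L * (6 * 2 ^ k * Y) ≤ 16 * N ^ 80 * N :=
      (mul_le_mul_of_nonneg_left h1 hQL0).trans (mul_le_mul_of_nonneg_right hQL hN0)
    have e2 : (16 : ℤ) * N ^ 80 * N = 16 * N ^ 81 := by ring
    have e3 : N ^ 84 = N ^ 81 * N ^ 3 := by ring
    have e4 : (27 : ℤ) ≤ N ^ 3 := by
      calc (27 : ℤ) = 3 ^ 3 := by norm_num
        _ ≤ N ^ 3 := pow_le_pow_left₀ (by norm_num) hN 3
    have e5 : N ^ 81 * 27 ≤ N ^ 81 * N ^ 3 := mul_le_mul_of_nonneg_left e4 (hpos 81)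
    have e6 := hp 40 81 (by norm_num)
    rw [hB, e3]
    linarith [hpos 81]
  have hM0 : 0 ≤ M := by
    rw [hM]
    exact add_nonneg (by positivity) (by positivity)
  have hM1 : M ≤ N ^ 177 := by
    have e0 : (9 : ℤ) ≤ N ^ 2 := by
      calc (9 : ℤ) = 3 ^ 2 := by norm_num
        _ ≤ N ^ 2 := pow_le_pow_left₀ (by norm_num) hN 2
    have e1 : N ^ 2 * (2 * (2 * N ^ 40) + 1) ≤ N ^ 44 := by
      have e2 : (2 * (2 * N ^ 40) + 1 : ℤ) ≤ 9 * N ^ 40 := by linarith [hone 40]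
      calc N ^ 2 * (2 * (2 * N ^ 40) + 1) ≤ N ^ 2 * (9 * N ^ 40) :=
            mul_le_mul_of_nonneg_left e2 (hpos 2)
        _ = 9 * N ^ 42 := by ring
        _ ≤ N ^ 2 * N ^ 42 := mul_le_mul_of_nonneg_right e0 (hpos 42)
        _ = N ^ 44 := by ring
    have e3 : (N ^ 2 * (2 * (2 * N ^ 40) + 1)) ^ 4 ≤ N ^ 176 := by
      calc (N ^ 2 * (2 * (2 * N ^ 40) + 1)) ^ 4 ≤ (N ^ 44) ^ 4 :=
            pow_le_pow_left₀ (mul_nonneg (hpos 2) (by linarith [hone 40])) e1 4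
        _ = N ^ 176 := by rw [← pow_mul]
    have e4 : (3 * N ^ 2) ^ 5 ≤ N ^ 15 := by
      calc (3 * N ^ 2) ^ 5 ≤ (N * N ^ 2) ^ 5 :=
            pow_le_pow_left₀ (by positivity) (mul_le_mul_of_nonneg_right hN (hpos 2)) 5
        _ = N ^ 15 := by ring
    have e5 := hp 15 176 (by norm_num)
    have e6 : N ^ 177 = N ^ 176 * N := by ring
    have e7 : N ^ 176 * 3 ≤ N ^ 176 * N := mul_le_mul_of_nonneg_left hN (hpos 176)
    rw [hM, e6]
    linarith [hpos 176]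
  have hBM : B * M ≤ N ^ 261 := by
    calc B * M ≤ N ^ 84 * M := mul_le_mul_of_nonneg_right hB1 hM0
      _ ≤ N ^ 84 * N ^ 177 := mul_le_mul_of_nonneg_left hM1 (hpos 84)
      _ = N ^ 261 := by ring
  have hR : L * (3 * 2 ^ k * Y) + L * (2 ^ k * (3 * Y)) ≤ 2 * N ^ 41 := by
    calc L * (3 * 2 ^ k * Y) + L * (2 ^ k * (3 * Y)) = L * (6 * 2 ^ k * Y) := by ring
      _ ≤ L * N := mul_le_mul_of_nonneg_left h1 hL0
      _ ≤ 2 * N ^ 40 * N := mul_le_mul_of_nonneg_right hL1 hN0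
      _ = 2 * N ^ 41 := by ring
  have f1 := hp 41 261 (by norm_num)
  have f2 : N ^ 262 = N ^ 261 * N := by ring
  have f3 : N ^ 261 * 3 ≤ N ^ 261 * N := mul_le_mul_of_nonneg_left hN (hpos 261)
  have f4 := hp 262 300 (by norm_num)
  rw [f2] at f4
  linarith

end Pool.Agent.Helper81.FL
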